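import Pool.Agent.Helper92.YMF.Lin

/-!
# Project YM, FIN: Cauchy-Schwarz bounds, and LIML from its homogeneous version
-/

set_option autoImplicit false

namespace Pool.Agent.Helper92.YMF

open Finset Helper35.YM

variable {n p : ℕ}

theorem sB_nonneg (B : Fin p → Fin n → Fin n → ℝ) : 0 ≤ sB B :=
  sum_nonneg fun _ _ => sum_nonneg fun _ _ => sum_nonneg fun _ _ => sq_nonneg _

theorem nh_nonneg (m : Fin n → Fin n → ℝ) : 0 ≤ nh m :=
  sum_nonneg fun _ _ => sum_nonneg fun _ _ => sq_nonneg _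

theorem nL_nonneg (L : Fin p → Fin n → Fin n → Fin n → ℝ) : 0 ≤ nL L :=
  sum_nonneg fun _ _ => sum_nonneg fun _ _ => sum_nonneg fun _ _ => sum_nonneg fun _ _ => sq_nonneg _

theorem nv_nonneg (v : Fin p → Fin n → ℝ) : 0 ≤ nv v :=
  sum_nonneg fun _ _ => sum_nonneg fun _ _ => sq_nonneg _

theorem nx_nonneg (y : Fin n → ℝ) : 0 ≤ nx y := sum_nonneg fun _ _ => sq_nonneg _

/-- Cauchy-Schwarz -/
theorem cs {J : Type} [Fintype J] (f g : J → ℝ) : (∑ i, f i * g i) ^ 2 ≤ (∑ i, f i ^ 2) * ∑ i, g i ^ 2 :=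
  Finset.sum_mul_sq_le_sq_mul_sq _ f g

theorem cs2 {J J' : Type} [Fintype J] [Fintype J'] (f g : J → J' → ℝ) :
    (∑ i, ∑ j, f i j * g i j) ^ 2 ≤ (∑ i, ∑ j, f i j ^ 2) * ∑ i, ∑ j, g i j ^ 2 := by
  have h := cs (fun p : J × J' => f p.1 p.2) (fun p => g p.1 p.2)
  simpa only [Fintype.sum_prod_type] using h

theorem cs3 {J J' J'' : Type} [Fintype J] [Fintype J'] [Fintype J''] (f g : J → J' → J'' → ℝ) :
    (∑ i, ∑ j, ∑ l, f i j l * g i j l) ^ 2 ≤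
      (∑ i, ∑ j, ∑ l, f i j l ^ 2) * ∑ i, ∑ j, ∑ l, g i j l ^ 2 := by
  have h := cs (fun p : J × J' × J'' => f p.1 p.2.1 p.2.2) (fun p => g p.1 p.2.1 p.2.2)
  simpa only [Fintype.sum_prod_type] using h

theorem cs4 {J J' J'' J3 : Type} [Fintype J] [Fintype J'] [Fintype J''] [Fintype J3]
    (f g : J → J' → J'' → J3 → ℝ) :
    (∑ i, ∑ j, ∑ l, ∑ p, f i j l p * g i j l p) ^ 2 ≤
      (∑ i, ∑ j, ∑ l, ∑ p, f i j l p ^ 2) * ∑ i, ∑ j, ∑ l, ∑ p, g i j l p ^ 2 := by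
  have h := cs (fun q : J × J' × J'' × J3 => f q.1 q.2.1 q.2.2.1 q.2.2.2)
    (fun q => g q.1 q.2.1 q.2.2.1 q.2.2.2)
  simpa only [Fintype.sum_prod_type] using h

/-- `|l|² ≤ S |L|²` -/
theorem lf_sq (B : Fin p → Fin n → Fin n → ℝ) (L : Fin p → Fin n → Fin n → Fin n → ℝ) :
    ∑ i, lf B L i ^ 2 ≤ sB B * nL L := by
  have h : ∀ i, lf B L i ^ 2 ≤ sB B * ∑ a, ∑ j, ∑ l, L a i j l ^ 2 := fun i =>
    cs3 B (fun a j l => L a i j l)
  refine (sum_le_sum fun i _ => h i).trans (le_of_eq ?_)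
  rw [← mul_sum]
  congr 1
  unfold nL
  rw [sum_comm]

/-- `(y · l)² ≤ |y|² S |L|²` -/
theorem yl_sq (B : Fin p → Fin n → Fin n → ℝ) (L : Fin p → Fin n → Fin n → Fin n → ℝ) (y : Fin n → ℝ) :
    (∑ i, y i * lf B L i) ^ 2 ≤ nx y * (sB B * nL L) :=
  (cs y (lf B L)).trans (mul_le_mul_of_nonneg_left (lf_sq B L) (nx_nonneg y))

/-- `2 |y · l| ≤ |L|² + S |y|²` -/
theorem yl_abs (B : Fin p → Fin n → Fin n → ℝ) (L : Fin p → Fin n → Fin n → Fin n → ℝ) (y : Fin n → ℝ) :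
    |2 * ∑ i, y i * lf B L i| ≤ nL L + sB B * nx y := by
  refine abs_le_of_sq_le_sq ?_ (add_nonneg (nL_nonneg L) (mul_nonneg (sB_nonneg B) (nx_nonneg y)))
  have h := yl_sq B L y
  nlinarith [sq_nonneg (nL L - sB B * nx y)]

theorem prod4 (f g : Fin p → Fin n → ℝ) : ∑ a, ∑ b, ∑ i, ∑ j, f a i * g b j =
    (∑ a, ∑ i, f a i) * ∑ b, ∑ j, g b j := by
  simp only [← mul_sum, ← sum_mul]

theorem sB_eq (B : Fin p → Fin n → Fin n → ℝ) : ∑ b, ∑ j, ∑ l, B b l j ^ 2 = sB B := by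
  unfold sB
  exact sum_congr rfl fun b _ => sum_comm

/-- `|F|² ≤ 4 S²` -/
theorem cmt_sq (B : Fin p → Fin n → Fin n → ℝ) :
    ∑ a, ∑ b, ∑ i, ∑ j, cmt (B a) (B b) i j ^ 2 ≤ 4 * sB B ^ 2 := by
  have h : ∀ a b i j, cmt (B a) (B b) i j ^ 2 ≤
      2 * ((∑ l, B a i l ^ 2) * ∑ l, B b l j ^ 2) + 2 * ((∑ l, B b i l ^ 2) * ∑ l, B a l j ^ 2) := by
    intro a b i j
    have h1 := cs (fun l => B a i l) (fun l => B b l j)
    have h2 := cs (fun l => B b i l) (fun l => B a l j)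
    unfold cmt
    rw [sum_sub_distrib]
    nlinarith [sq_nonneg (∑ l, B a i l * B b l j + ∑ l, B b i l * B a l j)]
  have h3 : ∑ a, ∑ b, ∑ i, ∑ j, ((∑ l, B a i l ^ 2) * ∑ l, B b l j ^ 2) = sB B * sB B := by
    rw [prod4 (fun a i => ∑ l, B a i l ^ 2) (fun b j => ∑ l, B b l j ^ 2), sB_eq B]
    rfl
  have h4 : ∑ a, ∑ b, ∑ i, ∑ j, ((∑ l, B b i l ^ 2) * ∑ l, B a l j ^ 2) = sB B * sB B := by
    rw [sum_comm, h3]
  calc ∑ a, ∑ b, ∑ i, ∑ j, cmt (B a) (B b) i j ^ 2 ≤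
        ∑ a, ∑ b, ∑ i, ∑ j, (2 * ((∑ l, B a i l ^ 2) * ∑ l, B b l j ^ 2) +
          2 * ((∑ l, B b i l ^ 2) * ∑ l, B a l j ^ 2)) :=
        sum_le_sum fun a _ => sum_le_sum fun b _ => sum_le_sum fun i _ => sum_le_sum fun j _ => h a b i j
    _ = 2 * (∑ a, ∑ b, ∑ i, ∑ j, ((∑ l, B a i l ^ 2) * ∑ l, B b l j ^ 2)) +
          2 * ∑ a, ∑ b, ∑ i, ∑ j, ((∑ l, B b i l ^ 2) * ∑ l, B a l j ^ 2) := by
        simp only [sum_add_distrib, mul_sum]
    _ = 4 * sB B ^ 2 := by rw [h3, h4]; ring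

theorem prod4' (v : Fin p → Fin n → ℝ) : ∑ a, ∑ b, ∑ i, ∑ j, (v b i * v a j) ^ 2 = nv v ^ 2 := by
  rw [sum_comm]
  simp only [mul_pow]
  rw [prod4 (fun a i => v a i ^ 2) (fun b j => v b j ^ 2)]
  unfold nv
  ring

/-- `|Fvv| ≤ 2 S |v|²` -/
theorem Fvv_le (B : Fin p → Fin n → Fin n → ℝ) (v : Fin p → Fin n → ℝ) : |Fvv B v| ≤ 2 * sB B * nv v := by
  have h1 := cs4 (fun (a b : Fin p) (i j : Fin n) => cmt (B b) (B a) i j) (fun a b i j => v b i * v a j)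
  rw [prod4'] at h1
  have h2 : ∑ a, ∑ b, ∑ i, ∑ j, cmt (B b) (B a) i j ^ 2 ≤ 4 * sB B ^ 2 := by
    rw [sum_comm]
    exact cmt_sq B
  have h3 : Fvv B v ^ 2 ≤ (2 * sB B * nv v) ^ 2 := by
    refine h1.trans ?_
    have := mul_le_mul_of_nonneg_right h2 (sq_nonneg (nv v))
    calc _ ≤ 4 * sB B ^ 2 * nv v ^ 2 := this
      _ = (2 * sB B * nv v) ^ 2 := by ring
  exact abs_le_of_sq_le_sq h3 (mul_nonneg (mul_nonneg (by norm_num) (sB_nonneg B)) (nv_nonneg v))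

/-- LIML from LIMLH. -/
theorem liml_of_limlh {kap bet lam tau eta : ℝ} (hk0 : 0 ≤ kap) (hk1 : kap ≤ 1) (hl0 : 0 ≤ lam)
    (hl1 : lam ≤ 1 - eta) (ht : tau ≤ 1) (h : LIMLH kap bet lam tau eta) :
    LIML kap bet lam tau eta := by
  intro n p m B T L X w hm hB hT hw hL
  have h0 := h n p m B T L X hm hB hT hL
  have hq := yl_abs B L (mX m X)
  have hF := Fvv_le B (bX B X)
  unfold G0 at h0 ⊢
  have hS := sB_nonneg B
  have hμ := nh_nonneg m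
  have hP := nL_nonneg L
  have hV := nv_nonneg (bX B X)
  have hX := nx_nonneg X
  have hY := nx_nonneg (mX m X)
  set S := sB B
  set μ := nh m
  set P := nL L
  set V := nv (bX B X)
  set X2 := nx X
  set Y := nx (mX m X)
  set q := ∑ i, mX m X i * lf B L i
  set Fv := Fvv B (bX B X)
  have hq1 := (abs_le.mp hq).1
  have hF1 := (abs_le.mp hF).2
  have key : 0 ≤ (w - (μ + S)) * (kap * ((1 - eta) * P + lam * (2 * q) + lam * (S * Y)) +
      (-(kap * Fv) + kap * lam * (S * ((1 - tau) * ((μ + S) * X2) + V)) + (kap * w + S) *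
        (V + lam * (S * ((1 - tau) * X2))))) := by
    have h1 : 0 ≤ (1 - eta) * P + lam * (2 * q) + lam * (S * Y) := by
      have h2 : lam * P ≤ (1 - eta) * P := mul_le_mul_of_nonneg_right hl1 hP
      have h3 : 0 ≤ lam * (P + S * Y + 2 * q) := mul_nonneg hl0 (by linarith)
      nlinarith
    have h2 : 0 ≤ kap * ((1 - eta) * P + lam * (2 * q) + lam * (S * Y)) := mul_nonneg hk0 h1
    have h3 : 0 ≤ kap * lam * (S * ((1 - tau) * ((μ + S) * X2) + V)) := by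
      have : 0 ≤ (1 - tau) * ((μ + S) * X2) := mul_nonneg (by linarith) (by positivity)
      positivity
    have hw0 : 0 ≤ w := by linarith
    have h4 : 0 ≤ (kap * w + S) * (lam * (S * ((1 - tau) * X2))) := by
      have : 0 ≤ (1 - tau) * X2 := mul_nonneg (by linarith) hX
      positivity
    have h5 : kap * Fv ≤ (kap * w + S) * V := by
      have h6 : kap * Fv ≤ kap * (2 * S * V) := mul_le_mul_of_nonneg_left hF1 hk0
      have h7 : 0 ≤ kap * (w - S) * V := mul_nonneg (mul_nonneg hk0 (by linarith)) hV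
      have h8 : 0 ≤ (1 - kap) * (S * V) := mul_nonneg (by linarith) (by positivity)
      nlinarith
    refine mul_nonneg (by linarith) (add_nonneg h2 ?_)
    rw [mul_add (kap * w + S)]
    linarith
  nlinarith [h0, key]

end Pool.Agent.Helper92.YMF
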