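import Pool.Agent.Helper92.YMF.Bd

/-!
# Project YM, FIN: CGRADL (in terms of `h`) from CGM (in terms of `m`)
-/

set_option autoImplicit false

namespace Pool.Agent.Helper92.YMF

open Finset Helper35.YM

variable {n p : ℕ}

theorem pB_hm (a : ℝ) (m : Fin n → Fin n → ℝ) (B : Fin p → Fin n → Fin n → ℝ)
    (hB : ∀ a, ∑ i, B a i i = 0) (c : Fin p) : pB (hm a m) B c = pB m B c := by
  unfold pB hm
  have h1 : ∀ i, ∑ j, ((if i = j then a else 0) + m i j) * B c i j = a * B c i i + ∑ j, m i j * B c i j := by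
    intro i
    simp only [add_mul, sum_add_distrib, ite_mul, zero_mul]
    rw [Finset.sum_ite_eq]
    simp
  simp only [h1, sum_add_distrib]
  rw [← mul_sum, hB c]
  ring

theorem cmt_hm (a : ℝ) (m Q : Fin n → Fin n → ℝ) (i j : Fin n) : cmt (hm a m) Q i j = cmt m Q i j := by
  unfold cmt hm
  have h1 : ∀ k, ((if i = k then a else 0) + m i k) * Q k j - Q i k * ((if k = j then a else 0) + m k j) =
      (if i = k then a * Q k j else 0) - (if k = j then a * Q i k else 0) + (m i k * Q k j - Q i k * m k j) := by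
    intro k
    split_ifs <;> ring
  simp only [h1, sum_add_distrib, sum_sub_distrib]
  rw [Finset.sum_ite_eq, Finset.sum_ite_eq']
  simp

theorem nh_hm (a : ℝ) (m : Fin n → Fin n → ℝ) : nh (hm a m) = n * a ^ 2 + 2 * a * ∑ i, m i i + nh m := by
  unfold nh hm
  have h1 : ∀ i, ∑ j, ((if i = j then a else 0) + m i j) ^ 2 = a ^ 2 + 2 * a * m i i + ∑ j, m i j ^ 2 := by
    intro i
    have h2 : ∀ j, ((if i = j then a else 0) + m i j) ^ 2 =
        (if i = j then a ^ 2 + 2 * a * m i j else 0) + m i j ^ 2 := by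
      intro j
      split_ifs <;> ring
    simp only [h2, sum_add_distrib]
    rw [Finset.sum_ite_eq]
    simp
  simp only [h1, sum_add_distrib]
  rw [← mul_sum]
  simp

theorem zf_hm (a : ℝ) (m : Fin n → Fin n → ℝ) (B : Fin p → Fin n → Fin n → ℝ)
    (hB : ∀ a, ∑ i, B a i i = 0) (v : Fin p → Fin n → ℝ) (i : Fin n) :
    zf (hm a m) B v i = zf m B v i := by
  unfold zf
  exact sum_congr rfl fun c _ => by rw [pB_hm a m B hB c]

theorem f0v_hm (a : ℝ) (m : Fin n → Fin n → ℝ) (B : Fin p → Fin n → Fin n → ℝ)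
    (v : Fin p → Fin n → ℝ) (i : Fin n) : f0v (hm a m) B v i = f0v m B v i := by
  unfold f0v
  exact sum_congr rfl fun c _ => sum_congr rfl fun j _ => by rw [cmt_hm]

theorem e12_hm (a : ℝ) (m : Fin n → Fin n → ℝ) (B : Fin p → Fin n → Fin n → ℝ)
    (hB : ∀ a, ∑ i, B a i i = 0) (v : Fin p → Fin n → ℝ) (b c : Fin p) (j : Fin n) :
    e12 (hm a m) B v b c j = e12 m B v b c j := by
  unfold e12
  rw [pB_hm a m B hB b, pB_hm a m B hB c]
  congr 1
  exact sum_congr rfl fun i _ => by rw [cmt_hm, cmt_hm]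

/-- CGRADL from CGM. -/
theorem cgradl_of_cgm {n : ℕ} {kap bet lam : ℝ} (hC : CGM n kap bet lam) : CGRADL n kap bet lam := by
  intro p h B T X hh hB htr htB hle hT hv
  rcases Nat.eq_zero_or_pos n with h0 | hn
  · subst h0
    simp at htr
  have hn0 : (0 : ℝ) < n := by exact_mod_cast hn
  set a : ℝ := 1 / (n : ℝ) with ha
  have hna : (n : ℝ) * a = 1 := by rw [ha]; field_simp
  let m : Fin n → Fin n → ℝ := fun i j => h i j - (if i = j then a else 0)
  have hhm : hm a m = h := by
    funext i j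
    simp [hm, m]
  have hmt : ∑ i, m i i = 0 := by
    simp only [m, sum_sub_distrib, if_true]
    rw [htr]
    simp only [sum_const, card_univ, Fintype.card_fin, nsmul_eq_mul]
    rw [hna]
    ring
  have hms : ∀ i j, m i j = m j i := by
    intro i j
    simp only [m]
    rw [hh i j]
    by_cases e : i = j
    · subst e; rfl
    · rw [if_neg e, if_neg (fun e' => e e'.symm)]
  have hnh : nh h = a + nh m := by
    have h1 := nh_hm a m
    rw [hhm, hmt] at h1
    rw [h1]
    have : (n : ℝ) * a ^ 2 = a := by rw [pow_two, ← mul_assoc, hna, one_mul]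
    rw [this]
    ring
  have h2a : 2 / (n : ℝ) = a + a := by rw [ha]; ring
  have hmu : nh m + sB B ≤ a := by
    rw [hnh, h2a] at hle
    linarith
  have hy : ∀ i, mX h X i = a * X i + mX m X i := by
    intro i
    unfold mX
    rw [← hhm]
    unfold hm
    simp only [add_mul, sum_add_distrib, ite_mul, zero_mul]
    rw [Finset.sum_ite_eq]
    simp
  have hyf : mX h X = fun i => a * X i + mX m X i := funext hy
  have key := hC p m B T _ X hms hB hmt htB hmu hT hv rfl
  rw [← ha, hhm, ← hyf] at key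
  refine key.trans (le_of_eq ?_)
  set L := Lf h B T (bX B X) (mX h X) with hL
  have hz : ∀ i, zf h B (bX B X) i = zf m B (bX B X) i := fun i => by
    conv_lhs => rw [← hhm]
    exact zf_hm a m B htB _ i
  have hf : ∀ i, f0v h B (bX B X) i = f0v m B (bX B X) i := fun i => by
    conv_lhs => rw [← hhm]
    exact f0v_hm a m B _ i
  have he : ∀ b c j, e12 h B (bX B X) b c j = e12 m B (bX B X) b c j := fun b c j => by
    conv_lhs => rw [← hhm]
    exact e12_hm a m B htB _ b c j
  have hyy : ∀ i, mX h X i - a * X i = mX m X i := fun i => by rw [hy i]; ring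
  unfold Ga G1 GX G2 Gm
  rw [← ha]
  simp only [hz, hf, he, hyy]
  unfold nx
  rw [hnh]
  have hk : kap / (n : ℝ) = kap * a := by rw [ha]; ring
  rw [hk]

end Pool.Agent.Helper92.YMF
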